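import Mathlib

namespace Pool.Agent.Results.MP_bfe17a_co.IntervalFails

open Set

/-- `w` and `w'` lie in the same connected component of `G - B`. -/
def SameComp {V : Type} (G : SimpleGraph V) (B : Set V) (w w' : V) : Prop :=
  ∃ (h : w ∈ Bᶜ) (h' : w' ∈ Bᶜ), (G.induce Bᶜ).Reachable ⟨w, h⟩ ⟨w', h'⟩

/-- The PSD colour change rule with blue set `B`: the blue vertex `u` may force the white
vertex `w`, namely `w` is the only white neighbour of `u` in `G[B ∪ W]`, where `W` is the
component of `G - B` containing `w`. -/
def Forces {V : Type} (G : SimpleGraph V) (B : Set V) (u w : V) : Prop :=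
  u ∈ B ∧ w ∉ B ∧ G.Adj u w ∧ ∀ w', SameComp G B w w' → G.Adj u w' → w' = w

/-- All forces possible at blue set `B` performed simultaneously. -/
def step {V : Type} (G : SimpleGraph V) (B : Set V) : Set V :=
  B ∪ {w | ∃ u, Forces G B u w}

/-- `blue G S t` is `S^(t)`. -/
def blue {V : Type} (G : SimpleGraph V) (S : Set V) : ℕ → Set V
  | 0 => S
  | t + 1 => step G (blue G S t)

/-- `S` is a PSD zero forcing set. -/
def IsForcing {V : Type} (G : SimpleGraph V) (S : Set V) : Prop :=
  ∃ t, blue G S t = Set.univ

/-- The PSD zero forcing number `Z_+(G)`. -/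
noncomputable def Zplus {V : Type} (G : SimpleGraph V) : ℕ :=
  sInf {m | ∃ S : Finset V, IsForcing G (S : Set V) ∧ S.card = m}

/-- Minimum PSD zero forcing sets. -/
def IsMinForcing {V : Type} (G : SimpleGraph V) (S : Finset V) : Prop :=
  IsForcing G (S : Set V) ∧ S.card = Zplus G

/-- The propagation time `pt_+(G,S)` of a PSD zero forcing set. -/
noncomputable def propTime {V : Type} (G : SimpleGraph V) (S : Finset V) : ℕ :=
  sInf {t | blue G (S : Set V) t = Set.univ}

/-- `pt_+(G)`. -/
noncomputable def ptPlus {V : Type} (G : SimpleGraph V) : ℕ :=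
  sInf {t | ∃ S : Finset V, IsMinForcing G S ∧ propTime G S = t}

/-- `PT_+(G)`. -/
noncomputable def PTPlus {V : Type} (G : SimpleGraph V) : ℕ :=
  sSup {t | ∃ S : Finset V, IsMinForcing G S ∧ propTime G S = t}

/-! ### General facts -/

section general
variable {V : Type} {G : SimpleGraph V} {B : Set V}

lemma sameComp_refl {w : V} (h : w ∉ B) : SameComp G B w w :=
  ⟨h, h, SimpleGraph.Reachable.refl _⟩

lemma sameComp_adj {w w' : V} (h : w ∉ B) (h' : w' ∉ B) (ha : G.Adj w w') :
    SameComp G B w w' := by
  refine ⟨h, h', ?_⟩
  apply SimpleGraph.Adj.reachable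
  simpa using ha

lemma sameComp_trans {a b c : V} (h1 : SameComp G B a b) (h2 : SameComp G B b c) :
    SameComp G B a c := by
  obtain ⟨ha, hb, r1⟩ := h1
  obtain ⟨_, hc, r2⟩ := h2
  exact ⟨ha, hc, r1.trans r2⟩

/-- A white vertex without white neighbours is alone in its component. -/
lemma sameComp_isolated {w : V} (hiso : ∀ x, x ∉ B → ¬ G.Adj w x) {w' : V}
    (h : SameComp G B w w') : w' = w := by
  obtain ⟨ha, hb, ⟨p⟩⟩ := h
  cases p with
  | nil => rfl
  | cons hadj _ =>
    exfalso
    rename_i v _
    exact hiso v.1 v.2 (by simpa using hadj)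

lemma subset_step : B ⊆ step G B := Set.subset_union_left

lemma subset_blue (S : Set V) (t : ℕ) : S ⊆ blue G S t := by
  induction t with
  | zero => exact subset_rfl
  | succ t ih => exact ih.trans subset_step

lemma blue_mono (S : Set V) {s t : ℕ} (h : s ≤ t) : blue G S s ⊆ blue G S t := by
  induction h with
  | refl => exact subset_rfl
  | step _ ih => exact ih.trans subset_step

lemma blue_univ_of_le {S : Set V} {s t : ℕ} (h : s ≤ t) (hs : blue G S s = Set.univ) :
    blue G S t = Set.univ := by
  apply Set.eq_univ_of_univ_subset
  rw [← hs]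
  exact blue_mono S h

/-- A PSD forcing set that is not everything admits a first force. -/
lemma exists_force {S : Set V} (hS : IsForcing G S) (hne : S ≠ Set.univ) :
    ∃ u w, Forces G S u w := by
  by_contra hcon
  push Not at hcon
  have hstep : step G S = S := by
    apply Set.Subset.antisymm
    · rintro w (hw | ⟨u, hu⟩)
      · exact hw
      · exact absurd hu (hcon u w)
    · exact subset_step
  have hall : ∀ t, blue G S t = S := by
    intro t
    induction t with
    | zero => rfl
    | succ t ih => show step G (blue G S t) = S; rw [ih, hstep]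
  obtain ⟨t, ht⟩ := hS
  exact hne (by rw [← hall t, ht])

end general

/-! ### The graphs: a path on `K+1` vertices joined to `K` isolated vertices -/

/-- Adjacency. -/
def adjRel (K : ℕ) : (Fin (K + 1) ⊕ Fin K) → (Fin (K + 1) ⊕ Fin K) → Prop
  | Sum.inl a, Sum.inl b => (a : ℕ) + 1 = b ∨ (b : ℕ) + 1 = a
  | Sum.inl _, Sum.inr _ => True
  | Sum.inr _, Sum.inl _ => True
  | Sum.inr _, Sum.inr _ => False

/-- The join of a path on `K+1` vertices and `K` isolated vertices. -/
def JG (K : ℕ) : SimpleGraph (Fin (K + 1) ⊕ Fin K) where
  Adj := adjRel K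
  symm := ⟨by
    intro x y h
    cases x <;> cases y <;> simp only [adjRel] at h ⊢
    exact h.symm⟩
  loopless := ⟨by
    intro x h
    cases x <;> simp only [adjRel] at h
    omega⟩

variable {K : ℕ}

@[simp] lemma adj_ll (a b : Fin (K + 1)) :
    (JG K).Adj (Sum.inl a) (Sum.inl b) ↔ ((a : ℕ) + 1 = b ∨ (b : ℕ) + 1 = a) := Iff.rfl
@[simp] lemma adj_lr (a : Fin (K + 1)) (i : Fin K) :
    (JG K).Adj (Sum.inl a) (Sum.inr i) ↔ True := Iff.rfl
@[simp] lemma adj_rl (a : Fin (K + 1)) (i : Fin K) :
    (JG K).Adj (Sum.inr i) (Sum.inl a) ↔ True := Iff.rfl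
@[simp] lemma adj_rr (i j : Fin K) :
    (JG K).Adj (Sum.inr i) (Sum.inr j) ↔ False := Iff.rfl

/-- If all path vertices are blue, then everything is blue one step later. -/
lemma step_univ {B : Set (Fin (K + 1) ⊕ Fin K)} (h : ∀ a, Sum.inl a ∈ B) :
    step (JG K) B = Set.univ := by
  apply Set.eq_univ_of_forall
  rintro (a | i)
  · exact subset_step (h a)
  · by_cases hi : (Sum.inr i : Fin (K + 1) ⊕ Fin K) ∈ B
    · exact subset_step hi
    · right
      refine ⟨Sum.inl 0, h 0, hi, by simp, ?_⟩
      intro w' hw' _
      apply sameComp_isolated _ hw'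
      rintro (b | j) hx
      · exact absurd (h b) hx
      · simp

/-- The blue part of the path spreads by at most one in each direction per step. -/
lemma step_bound {B : Set (Fin (K + 1) ⊕ Fin K)} {x y : ℤ}
    (h : ∀ a : Fin (K + 1), Sum.inl a ∈ B → x ≤ (a : ℤ) ∧ (a : ℤ) ≤ y)
    (hx : x ≤ K + 1) (hy : -1 ≤ y) :
    ∀ a : Fin (K + 1), Sum.inl a ∈ step (JG K) B → x - 1 ≤ (a : ℤ) ∧ (a : ℤ) ≤ y + 1 := by
  intro a ha
  rcases ha with ha | ⟨u, hu, hw, hadj, honly⟩
  · have := h a ha; omega
  · rcases u with b | i
    · have h1 := h b hu
      rw [adj_ll] at hadj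
      omega
    · constructor
      · by_contra hlt
        push Not at hlt
        have hK : (a : ℕ) + 1 < K + 1 := by omega
        have hwh : (Sum.inl ⟨(a : ℕ) + 1, hK⟩ : Fin (K + 1) ⊕ Fin K) ∉ B := by
          intro hmem
          have := h _ hmem
          simp only [Nat.cast_add, Nat.cast_one] at this
          omega
        have := honly _ (sameComp_adj hw hwh (by simp)) (by simp)
        have h2 := congrArg
          (fun s => Sum.elim (fun c : Fin (K + 1) => (c : ℕ)) (fun _ => 0) s) this
        simp at h2
      · by_contra hlt
        push Not at hlt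
        have ha1 : 1 ≤ (a : ℕ) := by omega
        have hK : (a : ℕ) - 1 < K + 1 := by omega
        have hwh : (Sum.inl ⟨(a : ℕ) - 1, hK⟩ : Fin (K + 1) ⊕ Fin K) ∉ B := by
          intro hmem
          have := h _ hmem
          simp only at this
          omega
        have := honly _ (sameComp_adj hw hwh (by simp; omega)) (by simp)
        have h2 := congrArg
          (fun s => Sum.elim (fun c : Fin (K + 1) => (c : ℕ)) (fun _ => 0) s) this
        simp at h2
        omega

lemma blue_bound {S : Set (Fin (K + 1) ⊕ Fin K)} {x y : ℤ}
    (h : ∀ a : Fin (K + 1), Sum.inl a ∈ S → x ≤ (a : ℤ) ∧ (a : ℤ) ≤ y)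
    (hx : x ≤ K + 1) (hy : -1 ≤ y) (t : ℕ) :
    ∀ a : Fin (K + 1), Sum.inl a ∈ blue (JG K) S t → x - t ≤ (a : ℤ) ∧ (a : ℤ) ≤ y + t := by
  induction t with
  | zero => simpa [blue] using h
  | succ t ih =>
    have := step_bound ih (by omega) (by omega)
    intro a ha
    have h1 := this a ha
    push_cast
    omega

/-- If the blue path vertices lie in `[x,y]` then full propagation by time `t` needs
`x ≤ t` and `K ≤ y + t`. -/
lemma blue_univ_bound {S : Set (Fin (K + 1) ⊕ Fin K)} {x y : ℤ}
    (h : ∀ a : Fin (K + 1), Sum.inl a ∈ S → x ≤ (a : ℤ) ∧ (a : ℤ) ≤ y)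
    (hx : x ≤ K + 1) (hy : -1 ≤ y) (t : ℕ) (ht : blue (JG K) S t = Set.univ) :
    x ≤ t ∧ (K : ℤ) ≤ y + t := by
  have h0 := blue_bound h hx hy t 0 (by rw [ht]; trivial)
  have h1 := blue_bound h hx hy t (Fin.last K) (by rw [ht]; trivial)
  simp only [Fin.val_zero, Fin.val_last] at h0 h1
  constructor
  · have := h0.1; push_cast at this; omega
  · exact h1.2

/-! ### Classification of small PSD forcing sets -/

open Classical in
/-- blue path indices -/
noncomputable def PA (S : Finset (Fin (K + 1) ⊕ Fin K)) : Finset (Fin (K + 1)) :=
  Finset.univ.filter (fun a => Sum.inl a ∈ S)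

open Classical in
/-- blue independent indices -/
noncomputable def PI (S : Finset (Fin (K + 1) ⊕ Fin K)) : Finset (Fin K) :=
  Finset.univ.filter (fun i => Sum.inr i ∈ S)

lemma card_eq (S : Finset (Fin (K + 1) ⊕ Fin K)) : S.card = (PA S).card + (PI S).card := by
  classical
  have hA : PA S = S.toLeft := by ext a; simp [PA]
  have hI : PI S = S.toRight := by ext a; simp [PI]
  rw [hA, hI, Finset.card_toLeft_add_card_toRight]

lemma mem_PA {S : Finset (Fin (K + 1) ⊕ Fin K)} {a : Fin (K + 1)} :
    a ∈ PA S ↔ Sum.inl a ∈ S := by classical simp [PA]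
lemma mem_PI {S : Finset (Fin (K + 1) ⊕ Fin K)} {i : Fin K} :
    i ∈ PI S ↔ Sum.inr i ∈ S := by classical simp [PI]

/-- Key classification. -/
theorem classify (hK : 2 ≤ K) (S : Finset (Fin (K + 1) ⊕ Fin K))
    (hS : IsForcing (JG K) (S : Set _)) :
    K + 1 ≤ S.card ∧
    (S.card = K + 1 →
      blue (JG K) (S : Set _) 2 = Set.univ ∨
      ∃ x y : ℤ, (∀ a : Fin (K + 1), Sum.inl a ∈ (S : Set (Fin (K + 1) ⊕ Fin K)) →
        x ≤ (a : ℤ) ∧ (a : ℤ) ≤ y) ∧ x ≤ K + 1 ∧ -1 ≤ y ∧
        ((x = y) ∨ y ≤ 1 ∨ (K : ℤ) - 1 ≤ x)) := by
  classical
  have hcard := card_eq S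
  by_cases hAll : ∀ a, Sum.inl a ∈ S
  · -- the whole path is blue
    have hPA : (PA S) = Finset.univ := by
      ext a; simp [mem_PA, hAll a]
    have hPAc : (PA S).card = K + 1 := by rw [hPA]; simp
    refine ⟨by omega, fun _ => Or.inl ?_⟩
    have h1 : blue (JG K) (S : Set _) 1 = Set.univ := by
      show step (JG K) (S : Set _) = Set.univ
      exact step_univ (fun a => by simpa using hAll a)
    exact blue_univ_of_le (by norm_num) h1
  · push Not at hAll
    obtain ⟨a0, ha0⟩ := hAll
    have hne : (S : Set (Fin (K + 1) ⊕ Fin K)) ≠ Set.univ := by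
      intro h
      apply ha0
      have : (Sum.inl a0 : Fin (K + 1) ⊕ Fin K) ∈ (S : Set _) := by rw [h]; trivial
      simpa using this
    obtain ⟨u, w, hu, hw, hadj, honly⟩ := exists_force hS hne
    by_cases hIall : ∀ i, Sum.inr i ∈ S
    · -- all independent vertices are blue
      have hPI : (PI S) = Finset.univ := by
        ext a; simp [mem_PI, hIall a]
      have hPIc : (PI S).card = K := by rw [hPI]; simp
      have hPAne : (PA S).Nonempty := by
        by_contra hemp
        rw [Finset.not_nonempty_iff_eq_empty] at hemp
        have hwhite : ∀ a, Sum.inl a ∉ (S : Set (Fin (K + 1) ⊕ Fin K)) := by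
          intro a ha
          have : a ∈ PA S := mem_PA.2 (by simpa using ha)
          rw [hemp] at this
          simp at this
        rcases u with a | i
        · exact hwhite a hu
        · rcases w with b | j
          · by_cases hb : (b : ℕ) + 1 < K + 1
            · have := honly (Sum.inl ⟨(b : ℕ) + 1, hb⟩)
                (sameComp_adj hw (hwhite _) (by simp)) (by simp)
              have h2 := congrArg
                (fun s => Sum.elim (fun c : Fin (K + 1) => (c : ℕ)) (fun _ => 0) s) this
              simp at h2
            · have hb2 : (b : ℕ) - 1 < K + 1 := by omega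
              have hb3 : 1 ≤ (b : ℕ) := by omega
              have := honly (Sum.inl ⟨(b : ℕ) - 1, hb2⟩)
                (sameComp_adj hw (hwhite _) (by simp; omega)) (by simp)
              have h2 := congrArg
                (fun s => Sum.elim (fun c : Fin (K + 1) => (c : ℕ)) (fun _ => 0) s) this
              simp at h2
              omega
          · exact hw (by simpa using hIall j)
      have hpos := Finset.card_pos.2 hPAne
      refine ⟨by omega, fun hc => Or.inr ?_⟩
      have h1 : (PA S).card = 1 := by omega
      obtain ⟨a, ha⟩ := Finset.card_eq_one.1 h1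
      have ha2 := a.2
      refine ⟨(a : ℤ), (a : ℤ), ?_, by omega, by omega, Or.inl rfl⟩
      intro b hb
      have hb' : b ∈ PA S := mem_PA.2 (by simpa using hb)
      rw [ha, Finset.mem_singleton] at hb'
      subst hb'
      exact ⟨le_refl _, le_refl _⟩
    · push Not at hIall
      obtain ⟨j0, hj0⟩ := hIall
      have ha0' : (Sum.inl a0 : Fin (K + 1) ⊕ Fin K) ∉ (S : Set _) := by simpa using ha0
      have hj0' : (Sum.inr j0 : Fin (K + 1) ⊕ Fin K) ∉ (S : Set _) := by simpa using hj0
      have hto : ∀ x, x ∉ (S : Set (Fin (K + 1) ⊕ Fin K)) →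
          SameComp (JG K) (S : Set _) x (Sum.inr j0) := by
        intro x hx
        rcases x with a | i
        · exact sameComp_adj hx hj0' (by simp)
        · exact sameComp_trans (sameComp_adj hx ha0' (by simp)) (sameComp_adj ha0' hj0' (by simp))
      have hfrom : ∀ x, x ∉ (S : Set (Fin (K + 1) ⊕ Fin K)) →
          SameComp (JG K) (S : Set _) (Sum.inr j0) x := by
        intro x hx
        rcases x with a | i
        · exact sameComp_adj hj0' hx (by simp)
        · exact sameComp_trans (sameComp_adj hj0' ha0' (by simp)) (sameComp_adj ha0' hx (by simp))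
      have honly' : ∀ w', w' ∉ (S : Set (Fin (K + 1) ⊕ Fin K)) → (JG K).Adj u w' → w' = w := by
        intro w' hw' h
        exact honly w' (sameComp_trans (hto w hw) (hfrom w' hw')) h
      rcases u with a | i
      · -- a path vertex forces
        have hwj : Sum.inr j0 = w := honly' _ hj0' (by simp)
        have hPI : (PI S) = Finset.univ.erase j0 := by
          ext j
          simp only [mem_PI, Finset.mem_erase, Finset.mem_univ, and_true]
          constructor
          · rintro h rfl
            exact hj0 h
          · intro h
            by_contra hj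
            have h3 := honly' (Sum.inr j) (by simpa using hj) (by simp)
            rw [← hwj] at h3
            exact h (Sum.inr.inj h3)
        have hPIc : (PI S).card = K - 1 := by
          rw [hPI, Finset.card_erase_of_mem (Finset.mem_univ _)]; simp
        have hnb : ∀ b : Fin (K + 1), ((a : ℕ) + 1 = b ∨ (b : ℕ) + 1 = a) → b ∈ PA S := by
          intro b hb
          rw [mem_PA]
          by_contra hb2
          have h3 := honly' (Sum.inl b) (by simpa using hb2) (by simpa using hb)
          rw [← hwj] at h3
          simp at h3
        have haS : a ∈ PA S := mem_PA.2 (by simpa using hu)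
        have ha2 := a.2
        rcases Nat.eq_zero_or_pos (a : ℕ) with haz | hap
        · -- a = 0
          have h1lt : 1 < K + 1 := by omega
          have hb : (⟨1, h1lt⟩ : Fin (K + 1)) ∈ PA S := hnb _ (Or.inl (by simp [haz]))
          have hsub : ({a, ⟨1, h1lt⟩} : Finset (Fin (K + 1))) ⊆ PA S := by
            intro z hz
            simp only [Finset.mem_insert, Finset.mem_singleton] at hz
            rcases hz with rfl | rfl
            · exact haS
            · exact hb
          have hne2 : a ≠ (⟨1, h1lt⟩ : Fin (K + 1)) := by
            intro h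
            have := congrArg Fin.val h
            simp at this
            omega
          have hc2 : ({a, ⟨1, h1lt⟩} : Finset (Fin (K + 1))).card = 2 := Finset.card_pair hne2
          have hle := Finset.card_le_card hsub
          refine ⟨by omega, fun hc => Or.inr ?_⟩
          have heq := Finset.eq_of_subset_of_card_le hsub (by omega)
          refine ⟨0, 1, ?_, by omega, by omega, Or.inr (Or.inl le_rfl)⟩
          intro b hb
          have hb' : b ∈ PA S := mem_PA.2 (by simpa using hb)
          rw [← heq] at hb'
          simp only [Finset.mem_insert, Finset.mem_singleton] at hb'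
          rcases hb' with rfl | rfl
          · omega
          · simp
        · by_cases haK : (a : ℕ) = K
          · -- a = K
            have h1lt : K - 1 < K + 1 := by omega
            have hb : (⟨K - 1, h1lt⟩ : Fin (K + 1)) ∈ PA S :=
              hnb _ (Or.inr (by simp; omega))
            have hsub : ({a, ⟨K - 1, h1lt⟩} : Finset (Fin (K + 1))) ⊆ PA S := by
              intro z hz
              simp only [Finset.mem_insert, Finset.mem_singleton] at hz
              rcases hz with rfl | rfl
              · exact haS
              · exact hb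
            have hne2 : a ≠ (⟨K - 1, h1lt⟩ : Fin (K + 1)) := by
              intro h
              have := congrArg Fin.val h
              simp at this
              omega
            have hc2 : ({a, ⟨K - 1, h1lt⟩} : Finset (Fin (K + 1))).card = 2 :=
              Finset.card_pair hne2
            have hle := Finset.card_le_card hsub
            refine ⟨by omega, fun hc => Or.inr ?_⟩
            have heq := Finset.eq_of_subset_of_card_le hsub (by omega)
            refine ⟨(K : ℤ) - 1, K, ?_, by omega, by omega, Or.inr (Or.inr le_rfl)⟩
            intro b hb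
            have hb' : b ∈ PA S := mem_PA.2 (by simpa using hb)
            rw [← heq] at hb'
            simp only [Finset.mem_insert, Finset.mem_singleton] at hb'
            rcases hb' with rfl | rfl
            · omega
            · simp only
              omega
          · -- interior
            have hl : (a : ℕ) - 1 < K + 1 := by omega
            have hr : (a : ℕ) + 1 < K + 1 := by omega
            have hb1 : (⟨(a : ℕ) - 1, hl⟩ : Fin (K + 1)) ∈ PA S :=
              hnb _ (Or.inr (by simp; omega))
            have hb2 : (⟨(a : ℕ) + 1, hr⟩ : Fin (K + 1)) ∈ PA S :=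
              hnb _ (Or.inl (by simp))
            have hsub : ({⟨(a : ℕ) - 1, hl⟩, a, ⟨(a : ℕ) + 1, hr⟩} : Finset (Fin (K + 1)))
                ⊆ PA S := by
              intro z hz
              simp only [Finset.mem_insert, Finset.mem_singleton] at hz
              rcases hz with rfl | rfl | rfl
              · exact hb1
              · exact haS
              · exact hb2
            have hc3 : ({⟨(a : ℕ) - 1, hl⟩, a, ⟨(a : ℕ) + 1, hr⟩} :
                Finset (Fin (K + 1))).card = 3 := by
              rw [Finset.card_eq_three]
              refine ⟨_, _, _, ?_, ?_, ?_, rfl⟩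
              · intro h
                have := congrArg Fin.val h
                simp at this
                omega
              · intro h
                have := congrArg Fin.val h
                simp at this
              · intro h
                have := congrArg Fin.val h
                simp at this
            have hle := Finset.card_le_card hsub
            refine ⟨by omega, fun hc => ?_⟩
            exfalso
            omega
      · -- an independent vertex forces
        rcases w with b | j
        · have hPA : (PA S) = Finset.univ.erase b := by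
            ext a
            simp only [mem_PA, Finset.mem_erase, Finset.mem_univ, and_true]
            constructor
            · rintro h rfl
              exact hw (by simpa using h)
            · intro h
              by_contra hj
              have h3 := honly' (Sum.inl a) (by simpa using hj) (by simp)
              exact h (Sum.inl.inj h3)
          have hPAc : (PA S).card = K := by
            rw [hPA, Finset.card_erase_of_mem (Finset.mem_univ _)]; simp
          have hiS : i ∈ PI S := mem_PI.2 (by simpa using hu)
          have hpos : 0 < (PI S).card := Finset.card_pos.2 ⟨i, hiS⟩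
          refine ⟨by omega, fun _ => Or.inl ?_⟩
          show step (JG K) (step (JG K) (S : Set _)) = Set.univ
          apply step_univ
          intro a
          by_cases hab : a = b
          · subst hab
            right
            exact ⟨Sum.inr i, hu, hw, hadj, honly⟩
          · left
            have : a ∈ PA S := by rw [hPA]; simp [hab]
            simpa using mem_PA.1 this
        · simp at hadj

/-- The whole path, as a set of vertices. -/
def pathSet (K : ℕ) : Finset (Fin (K + 1) ⊕ Fin K) :=
  Finset.univ.map ⟨Sum.inl, Sum.inl_injective⟩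

/-- One end of the path together with all the isolated vertices. -/
def endSet (K : ℕ) : Finset (Fin (K + 1) ⊕ Fin K) :=
  insert (Sum.inl 0) (Finset.univ.map ⟨Sum.inr, Sum.inr_injective⟩)

lemma pathSet_card : (pathSet K).card = K + 1 := by simp [pathSet]

lemma endSet_card : (endSet K).card = K + 1 := by
  unfold endSet
  rw [Finset.card_insert_of_notMem]
  · simp
  · simp

lemma pathSet_blue : blue (JG K) (pathSet K : Set _) 1 = Set.univ := by
  show step (JG K) (pathSet K : Set _) = Set.univ
  apply step_univ
  intro a
  simp [pathSet]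

lemma endSet_blue (t : ℕ) : ∀ a : Fin (K + 1), (a : ℕ) ≤ t →
    Sum.inl a ∈ blue (JG K) (endSet K : Set _) t := by
  induction t with
  | zero =>
    intro a ha
    have : a = 0 := by ext; simpa using ha
    subst this
    simp [blue, endSet]
  | succ t ih =>
    intro a ha
    by_cases hat : (a : ℕ) ≤ t
    · exact subset_step (ih a hat)
    · have ha1 : (a : ℕ) = t + 1 := by omega
      by_cases hmem : (Sum.inl a : Fin (K + 1) ⊕ Fin K) ∈ blue (JG K) (endSet K : Set _) t
      · exact subset_step hmem
      · right
        have htl : t < K + 1 := by omega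
        refine ⟨Sum.inl ⟨t, htl⟩, ih _ (by simp), hmem, by simp [ha1], ?_⟩
        rintro (b | j) hcomp hadj
        · rw [adj_ll] at hadj
          obtain ⟨_, hb, _⟩ := hcomp
          simp only at hadj
          have hbt : ¬ (b : ℕ) ≤ t := fun h => hb (ih b h)
          have : b = a := by ext; omega
          rw [this]
        · obtain ⟨_, hb, _⟩ := hcomp
          exact absurd (subset_blue _ t (by simp [endSet])) hb

lemma endSet_forcing : IsForcing (JG K) (endSet K : Set _) := by
  refine ⟨K, ?_⟩
  apply Set.eq_univ_of_forall
  rintro (a | j)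
  · exact endSet_blue K a (by omega)
  · exact subset_blue _ K (by simp [endSet])

lemma pathSet_forcing : IsForcing (JG K) (pathSet K : Set _) := ⟨1, pathSet_blue⟩

lemma zplus_eq (hK : 2 ≤ K) : Zplus (JG K) = K + 1 := by
  unfold Zplus
  apply le_antisymm
  · exact Nat.sInf_le ⟨pathSet K, pathSet_forcing, pathSet_card⟩
  · apply le_csInf
    · exact ⟨K + 1, pathSet K, pathSet_forcing, pathSet_card⟩
    · rintro m ⟨S, hS, rfl⟩
      exact (classify hK S hS).1

lemma pathSet_min (hK : 2 ≤ K) : IsMinForcing (JG K) (pathSet K) :=
  ⟨pathSet_forcing, by rw [zplus_eq hK, pathSet_card]⟩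

lemma endSet_min (hK : 2 ≤ K) : IsMinForcing (JG K) (endSet K) :=
  ⟨endSet_forcing, by rw [zplus_eq hK, endSet_card]⟩

lemma propTime_le {V : Type} {G : SimpleGraph V} {S : Finset V} {t : ℕ}
    (h : blue G (S : Set V) t = Set.univ) : propTime G S ≤ t := Nat.sInf_le h

lemma propTime_spec {V : Type} {G : SimpleGraph V} {S : Finset V}
    (h : IsForcing G (S : Set V)) : blue G (S : Set V) (propTime G S) = Set.univ :=
  Nat.sInf_mem h

/-- Every minimum PSD forcing set has propagation time at most `2` or at least `K/2`. -/
theorem dichotomy (hK : 2 ≤ K) (S : Finset (Fin (K + 1) ⊕ Fin K))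
    (hS : IsMinForcing (JG K) S) : propTime (JG K) S ≤ 2 ∨ K ≤ 2 * propTime (JG K) S := by
  have hc : S.card = K + 1 := by rw [hS.2, zplus_eq hK]
  rcases (classify hK S hS.1).2 hc with h | ⟨x, y, h, hx, hy, h3⟩
  · exact Or.inl (propTime_le h)
  · have hb := blue_univ_bound h hx hy _ (propTime_spec hS.1)
    rcases h3 with h3 | h3 | h3
    · right; omega
    · by_cases h4 : propTime (JG K) S ≤ 2
      · exact Or.inl h4
      · right; omega
    · by_cases h4 : propTime (JG K) S ≤ 2
      · exact Or.inl h4
      · right; omega

/-- The end set has propagation time at least `K`. -/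
lemma endSet_time : K ≤ propTime (JG K) (endSet K) := by
  have hb := blue_univ_bound (K := K) (S := (endSet K : Set _)) (x := 0) (y := 0) ?_
    (by omega) (by omega) _ (propTime_spec endSet_forcing)
  · omega
  · intro a ha
    simp [endSet] at ha
    subst ha
    simp

lemma pathSet_time (hK : 1 ≤ K) : propTime (JG K) (pathSet K) = 1 := by
  apply le_antisymm (propTime_le pathSet_blue)
  by_contra h
  have h0 : propTime (JG K) (pathSet K) = 0 := by omega
  have h1 := propTime_spec (G := JG K) (S := pathSet K) pathSet_forcing
  rw [h0] at h1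
  have h2 : (Sum.inr ⟨0, by omega⟩ : Fin (K + 1) ⊕ Fin K) ∈ blue (JG K) (pathSet K : Set _) 0 := by
    rw [h1]; trivial
  simp [blue, pathSet] at h2

/-- The set of propagation times of minimum sets is finite. -/
lemma times_finite {V : Type} [Finite V] (G : SimpleGraph V) :
    {t | ∃ S : Finset V, IsMinForcing G S ∧ propTime G S = t}.Finite := by
  have : Finite (Finset V) := by
    have := Fintype.ofFinite V
    infer_instance
  apply (Set.finite_range (fun S : Finset V => propTime G S)).subset
  rintro t ⟨S, _, rfl⟩
  exact ⟨S, rfl⟩

lemma ptPlus_eq (hK : 2 ≤ K) : ptPlus (JG K) = 1 := by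
  unfold ptPlus
  apply le_antisymm
  · exact Nat.sInf_le ⟨pathSet K, pathSet_min hK, pathSet_time (by omega)⟩
  · apply le_csInf
    · exact ⟨1, pathSet K, pathSet_min hK, pathSet_time (by omega)⟩
    · rintro t ⟨S, hS, rfl⟩
      by_contra h
      have h0 : propTime (JG K) S = 0 := by omega
      have h1 := propTime_spec (G := JG K) (S := S) hS.1
      rw [h0] at h1
      have hc : S.card = K + 1 := by rw [hS.2, zplus_eq hK]
      have hu : S = Finset.univ := by
        ext z
        simp only [Finset.mem_univ, iff_true]
        have : z ∈ blue (JG K) (S : Set _) 0 := by rw [h1]; trivial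
        simpa [blue] using this
      rw [hu] at hc
      simp at hc
      omega

lemma le_PTPlus (hK : 2 ≤ K) : K ≤ PTPlus (JG K) := by
  refine endSet_time.trans ?_
  unfold PTPlus
  apply le_csSup (times_finite (JG K)).bddAbove
  exact ⟨endSet K, endSet_min hK, rfl⟩

/-- **Main theorem.** The interval property of PSD propagation times fails, and the gaps can be
arbitrarily long: for every `m` there is a finite graph `G` with `pt_+(G) = 1` and
`PT_+(G) > m + 2` such that none of the `m` values `3, …, m + 2` is the propagation time of a
minimum PSD zero forcing set. -/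
theorem result :
    (¬ ∀ (V : Type) [Fintype V] (G : SimpleGraph V) (k : ℕ), ptPlus G ≤ k → k ≤ PTPlus G →
      ∃ S : Finset V, IsMinForcing G S ∧ propTime G S = k) ∧
    (∀ m : ℕ, ∃ (V : Type) (_ : Fintype V) (G : SimpleGraph V),
      ptPlus G = 1 ∧ m + 2 < PTPlus G ∧
      ∀ S : Finset V, IsMinForcing G S → propTime G S ≤ 2 ∨ m + 2 < propTime G S) := by
  have main : ∀ m : ℕ, ∃ (V : Type) (_ : Fintype V) (G : SimpleGraph V),
      ptPlus G = 1 ∧ m + 2 < PTPlus G ∧
      ∀ S : Finset V, IsMinForcing G S → propTime G S ≤ 2 ∨ m + 2 < propTime G S := by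
    intro m
    refine ⟨_, inferInstance, JG (2 * m + 5), ptPlus_eq (by omega), ?_, ?_⟩
    · have := le_PTPlus (K := 2 * m + 5) (by omega)
      omega
    · intro S hS
      rcases dichotomy (by omega) S hS with h | h
      · exact Or.inl h
      · right; omega
  refine ⟨?_, main⟩
  intro hall
  obtain ⟨V, hV, G, h1, h2, h3⟩ := main 1
  obtain ⟨S, hS, ht⟩ := hall V G 3 (by omega) (by omega)
  rcases h3 S hS with h | h <;> omega

end Pool.Agent.Results.MP_bfe17a_co.IntervalFails
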